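import Pool.Agent.Helper94.DN.St

/-!
# Project DN, module ROU: numbers without small prime factors
-/

set_option autoImplicit false

namespace Pool.Agent.Helper36.DN

open Pool.Agent.Helper94.DN

private noncomputable def g (n : ℕ) : ℝ := if n.Prime then 1 - (n : ℝ)⁻¹ else 1

private theorem g_pos (n : ℕ) : 0 < g n := by
  unfold g
  split_ifs with h
  · have h2 : (2 : ℝ) ≤ n := by exact_mod_cast h.two_le
    have h3 : (n : ℝ)⁻¹ ≤ 2⁻¹ := inv_anti₀ (by norm_num) h2
    norm_num at h3
    linarith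
  · exact one_pos

private theorem g_le (n : ℕ) : g n ≤ 1 := by
  unfold g
  split_ifs with h
  · have : 0 ≤ (n : ℝ)⁻¹ := by positivity
    linarith
  · exact le_rfl

private theorem g_ge (n : ℕ) : 1 - (n : ℝ)⁻¹ ≤ g n := by
  unfold g
  split_ifs with h
  · exact le_rfl
  · have : 0 ≤ (n : ℝ)⁻¹ := by positivity
    linarith

private noncomputable def D (m : ℕ) : ℝ := ∏ n ∈ Finset.range m, g n

private theorem D_succ (m : ℕ) : D (m + 1) = D m * g m := Finset.prod_range_succ _ _

private theorem D_pos (m : ℕ) : 0 < D m := Finset.prod_pos fun n _ => g_pos n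

private theorem D_anti {m m' : ℕ} (h : m ≤ m') : D m' ≤ D m := by
  induction m', h using Nat.le_induction with
  | base => exact le_rfl
  | succ k _ ih =>
    rw [D_succ]
    exact (mul_le_of_le_one_right (D_pos k).le (g_le k)).trans ih

private theorem D_eight : D 8 = 8 / 35 := by
  unfold D g
  simp only [Finset.prod_range_succ, Finset.prod_range_zero]
  norm_num

private theorem g_one (n d : ℕ) (hd : d ∣ n) (h1 : d ≠ 1) (h2 : d ≠ n) : g n = 1 := by
  unfold g
  rw [if_neg]
  intro hp
  rcases (Nat.dvd_prime hp).1 hd with h | h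
  · exact h1 h
  · exact h2 h

private theorem D_step (j : ℕ) (hj : 1 ≤ j) :
    D (6 * (j + 1) + 2) = D (6 * j + 2) * (g (6 * j + 5) * g (6 * j + 7)) := by
  have e : 6 * (j + 1) + 2 = 6 * j + 2 + 1 + 1 + 1 + 1 + 1 + 1 := by ring
  rw [e]
  simp only [D_succ]
  have e2 : g (6 * j + 2) = 1 := g_one _ 2 (by omega) (by omega) (by omega)
  have e3 : g (6 * j + 2 + 1) = 1 := g_one _ 3 (by omega) (by omega) (by omega)
  have e4 : g (6 * j + 2 + 1 + 1) = 1 := g_one _ 2 (by omega) (by omega) (by omega)
  have e6 : g (6 * j + 2 + 1 + 1 + 1 + 1) = 1 := g_one _ 2 (by omega) (by omega) (by omega)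
  rw [e2, e3, e4, e6]
  ring_nf

private theorem D_main (j : ℕ) (hj : 1 ≤ j) : (2 / 9 : ℝ) ^ 3 ≤ D (6 * j + 2) ^ 3 * j := by
  induction j, hj using Nat.le_induction with
  | base =>
    have e : 6 * 1 + 2 = 8 := rfl
    rw [e, D_eight]
    norm_num
  | succ j hj ih =>
    rw [D_step j hj]
    push_cast
    have hj1 : (1 : ℝ) ≤ j := by exact_mod_cast hj
    set t : ℝ := (j : ℝ) + 1 with ht
    have ht0 : 0 < t := by linarith
    have h5 : 1 - 1 / (6 * t - 1) ≤ g (6 * j + 5) := by
      have := g_ge (6 * j + 5)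
      push_cast at this
      have e : 6 * (j : ℝ) + 5 = 6 * t - 1 := by rw [ht]; ring
      rw [e, ← one_div] at this
      exact this
    have h7 : 1 - 1 / (6 * t + 1) ≤ g (6 * j + 7) := by
      have := g_ge (6 * j + 7)
      push_cast at this
      have e : 6 * (j : ℝ) + 7 = 6 * t + 1 := by rw [ht]; ring
      rw [e, ← one_div] at this
      exact this
    have a5 : 0 ≤ 1 - 1 / (6 * t - 1) := by
      rw [sub_nonneg, div_le_one (by linarith)]
      linarith
    have a7 : 0 ≤ 1 - 1 / (6 * t + 1) := by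
      rw [sub_nonneg, div_le_one (by linarith)]
      linarith
    have h57 : 1 - 1 / (3 * t) ≤ g (6 * j + 5) * g (6 * j + 7) := by
      refine le_trans ?_ (mul_le_mul h5 h7 a7 (g_pos _).le)
      have e : (1 - 1 / (6 * t - 1)) * (1 - 1 / (6 * t + 1)) =
          ((6 * t - 2) * (6 * t)) / ((6 * t - 1) * (6 * t + 1)) := by
        have c1 : 6 * t - 1 ≠ 0 := by linarith
        have c2 : 6 * t + 1 ≠ 0 := by linarith
        field_simp
        ring
      have e' : 1 - 1 / (3 * t) = (3 * t - 1) / (3 * t) := by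
        field_simp
      have d1 : 0 < 6 * t - 1 := by linarith
      have d2 : 0 < 6 * t + 1 := by linarith
      rw [e, e', div_le_div_iff₀ (by positivity) (mul_pos d1 d2)]
      nlinarith
    have hu0 : 0 ≤ 1 - 1 / (3 * t) := by
      rw [sub_nonneg, div_le_one (by linarith)]
      linarith
    have hcube : 1 - 1 / t ≤ (g (6 * j + 5) * g (6 * j + 7)) ^ 3 := by
      refine le_trans ?_ (pow_le_pow_left₀ hu0 h57 3)
      set u : ℝ := 1 / (3 * t) with hu
      have e : 1 / t = 3 * u := by rw [hu]; field_simp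
      have hu1 : 0 ≤ u := by rw [hu]; positivity
      rw [e]
      have : (1 - u) ^ 3 - (1 - 3 * u) = u ^ 2 * (3 - u) := by ring
      have h3 : 0 ≤ u ^ 2 * (3 - u) := mul_nonneg (sq_nonneg _) (by linarith)
      linarith
    have hD := D_pos (6 * j + 2)
    have h8 : D (6 * j + 2) ^ 3 * (1 - 1 / t) * t ≤
        (D (6 * j + 2) * (g (6 * j + 5) * g (6 * j + 7))) ^ 3 * t := by
      rw [mul_pow]
      exact mul_le_mul_of_nonneg_right (mul_le_mul_of_nonneg_left hcube (by positivity)) ht0.le
    have h9 : D (6 * j + 2) ^ 3 * (1 - 1 / t) * t = D (6 * j + 2) ^ 3 * j := by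
      have : (1 - 1 / t) * t = j := by
        rw [sub_mul, one_div, inv_mul_cancel₀ ht0.ne', ht]
        ring
      rw [mul_assoc, this]
    rw [h9] at h8
    exact ih.trans h8

private theorem cnt (P Q : ℕ) :
    ((Finset.Ico 1 (1 + Q * P)).filter fun n => P.Coprime n).card = Q * P.totient := by
  induction Q with
  | zero => simp
  | succ Q ih =>
    have e : Finset.Ico 1 (1 + (Q + 1) * P) =
        Finset.Ico 1 (1 + Q * P) ∪ Finset.Ico (1 + Q * P) (1 + Q * P + P) := by
      rw [Finset.Ico_union_Ico_eq_Ico (by omega) (by omega)]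
      congr 1
      ring
    rw [e, Finset.filter_union, Finset.card_union_of_disjoint, ih,
      Nat.filter_coprime_Ico_eq_totient]
    · ring
    · refine Finset.disjoint_filter_filter ?_
      exact Finset.Ico_disjoint_Ico_consecutive _ _ _

open Classical in
theorem hROU : StROU := by
  intro z hz
  set s : Finset ℕ := (Finset.range (z + 1)).filter Nat.Prime with hs
  set P : ℕ := ∏ p ∈ s, p with hP
  have hP0 : 0 < P := Finset.prod_pos fun p hp => (Finset.mem_filter.1 hp).2.pos
  have hpf : P.primeFactors = s := Nat.primeFactors_prod fun p hp => (Finset.mem_filter.1 hp).2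
  have hDs : D (z + 1) = ∏ p ∈ s, (1 - (p : ℝ)⁻¹) := by
    rw [hs, Finset.prod_filter]
    rfl
  have hφ : (P.totient : ℝ) = P * D (z + 1) := by
    have h1 := Nat.totient_eq_mul_prod_factors P
    rw [hpf] at h1
    rw [hDs]
    have h2 := congrArg (fun q : ℚ => (q : ℝ)) h1
    push_cast at h2
    exact h2
  refine ⟨D (z + 1), P, D_pos _, ?_, ?_⟩
  · have h1 := D_main z hz
    have h2 : D (6 * z + 2) ≤ D (z + 1) := D_anti (by omega)
    have h3 : D (6 * z + 2) ^ 3 ≤ D (z + 1) ^ 3 := pow_le_pow_left₀ (D_pos _).le h2 3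
    exact h1.trans (mul_le_mul_of_nonneg_right h3 (Nat.cast_nonneg z))
  · intro x
    have h1 : (x / P) * P ≤ x := Nat.div_mul_le_self x P
    have h2 : ((Finset.Ico 1 (1 + (x / P) * P)).filter fun n => P.Coprime n) ⊆
        (Finset.Icc 1 x).filter fun n => ∀ l : ℕ, l.Prime → l ∣ n → z < l := by
      intro n hn
      rw [Finset.mem_filter, Finset.mem_Ico] at hn
      rw [Finset.mem_filter, Finset.mem_Icc]
      refine ⟨⟨hn.1.1, by omega⟩, fun l hl hln => ?_⟩
      by_contra hlz
      have h3 : l ∈ s := by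
        rw [hs, Finset.mem_filter, Finset.mem_range]
        exact ⟨by omega, hl⟩
      have h4 : l ∣ P := Finset.dvd_prod_of_mem _ h3
      have h5 := Nat.dvd_gcd h4 hln
      rw [hn.2] at h5
      exact hl.one_lt.ne' (Nat.dvd_one.1 h5)
    have h3 := Finset.card_le_card h2
    rw [cnt] at h3
    have h4 : (((x / P) * P.totient : ℕ) : ℝ) ≤
        (((Finset.Icc 1 x).filter fun n => ∀ l : ℕ, l.Prime → l ∣ n → z < l).card : ℝ) := by
      exact_mod_cast h3
    refine le_trans ?_ h4
    push_cast
    rw [hφ]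
    have hPr : (0 : ℝ) < P := by exact_mod_cast hP0
    have h5 : (x : ℝ) ≤ ((x / P : ℕ) : ℝ) * P + P := by
      have h6 : x < (x / P) * P + P := by
        have := Nat.lt_div_mul_add (a := x) hP0
        exact this
      exact_mod_cast h6.le
    have hD1 : D (z + 1) ≤ 1 := by
      have := D_anti (m := 0) (m' := z + 1) (by omega)
      have e : D 0 = 1 := by unfold D; simp
      rwa [e] at this
    have hD0 := D_pos (z + 1)
    have h6 : D (z + 1) * x ≤ D (z + 1) * (((x / P : ℕ) : ℝ) * P + P) :=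
      mul_le_mul_of_nonneg_left h5 hD0.le
    have h7 : D (z + 1) * P ≤ 1 * P := mul_le_mul_of_nonneg_right hD1 hPr.le
    nlinarith

end Pool.Agent.Helper36.DN
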